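import Pool.Agent.Y126.SH.AL

/-!
# Finiteness of pure integral systems over `ℚ` with good reduction outside `S`

For `n ≥ 1`, `w ≥ 0` and a finite set `S` of primes there are only finitely many isomorphism classes
of integral systems `(T_ℓ)_ℓ` of rank `n` over `ℚ`, pure of weight `w`, polarized, with good reduction
outside `S` and semistable reduction in `S` (`IsPure S w`), such that two Frobenius polynomials have
no isotropic relation and the unipotent elements of the Galois group act on all `V_ℓ`, and on almost
all `T_ℓ / ℓ`, with Jordan blocks without common partial sums (`IsRigid S w`; for instance one Jordan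
block at a place of maximally degenerate reduction). For each of them there are only finitely many
Galois stable lattices in the adelic realisation up to multiplication by rational numbers.
-/

set_option autoImplicit false

namespace Pool.Agent.Results.MP_78e9a5_nt.IntegralSystems

open Pool.Agent.Y126.SH Pool.Agent.Y126.SH.IntegralSystem

theorem result (n w : ℕ) (hn : 0 < n) (S : Finset ℕ) :
    (∃ (m : ℕ) (T : Fin m → IntegralSystem n),
      (∀ i, (T i).IsPure S w ∧ IsRigid S w (T i)) ∧
      ∀ T' : IntegralSystem n, T'.IsPure S w → IsRigid S w T' → ∃ i, (T i).Isomorphic T') ∧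
    ∀ T : IntegralSystem n, T.IsPure S w → IsRigid S w T →
      ∃ (m : ℕ) (L : Fin m → ∀ (ℓ : ℕ) [Fact ℓ.Prime], Submodule ℤ_[ℓ] (Fin n → ℚ_[ℓ])),
        (∀ i, T.IsLattice (L i)) ∧
          ∀ L' : (∀ (ℓ : ℕ) [Fact ℓ.Prime], Submodule ℤ_[ℓ] (Fin n → ℚ_[ℓ])), T.IsLattice L' →
            ∃ i, Proportional (L i) L' := by
  obtain ⟨m, T, h1, h2⟩ := finiteness n w hn S
  exact ⟨⟨m, T, h1, fun T' h h' => h2 T' ⟨h, h'⟩⟩, fun T hT hR => lattices hn hT hR⟩

end Pool.Agent.Results.MP_78e9a5_nt.IntegralSystems
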