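import Pool.Agent.Y126.MD.Main

/-!
# Finiteness of maximally degenerate pure integral systems over `ℚ`

`n ≥ 1`, `w ≥ 0`, `S` a finite set of primes, `Λ` a set of primes. There are only finitely many
integral systems `(T_ℓ)_ℓ` of rank `n` over `ℚ`, up to isomorphism of the `T_ℓ` for all `ℓ` in `Λ`,
which are pure of weight `w`, with good reduction outside `S` and semistable reduction in `S`, and
which, for every `ℓ` in `Λ`, are maximally degenerate (one Jordan block) at a prime `p ≠ ℓ` in `S`
(`V_ℓ` for all and `T_ℓ / ℓ` for almost all `ℓ` in `Λ`); in rank `1` and in rank `2` and odd weight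
there is no condition of degeneration. No polarization and no condition on Frobenius elements. For
each such system there are only finitely many Galois stable lattices in the adelic realisation up to
multiplication by rational numbers (on `Λ`).

`Λ` can be the set of all primes if there are two primes of maximal degeneration, and the set of all
primes `≠ p` if there is one, `p`.
-/

set_option autoImplicit false

namespace Pool.Agent.Results.MP_78e9a5_nt.MaximallyDegenerate

open Pool.Agent.Y126.SH Pool.Agent.Y126.SH.IntegralSystem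

theorem result (n w : ℕ) (hn : 0 < n) (S : Finset ℕ) (Λ : Set ℕ) :
    (∃ (m : ℕ) (T : Fin m → IntegralSystem n), (∀ i, (T i).InClass S w Λ) ∧
      ∀ T' : IntegralSystem n, T'.InClass S w Λ → ∃ i, IsomorphicOn Λ (T i) T') ∧
    ∀ T : IntegralSystem n, T.InClass S w Λ →
      ∃ (m : ℕ) (L : Fin m → ∀ (ℓ : ℕ) [Fact ℓ.Prime], Submodule ℤ_[ℓ] (Fin n → ℚ_[ℓ])),
        (∀ i, T.IsLattice (L i)) ∧
          ∀ L' : (∀ (ℓ : ℕ) [Fact ℓ.Prime], Submodule ℤ_[ℓ] (Fin n → ℚ_[ℓ])), T.IsLattice L' →
            ∃ i, ProportionalOn Λ (L i) L' :=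
  ⟨Pool.Agent.Y126.MD.finiteness n w hn S Λ, fun _ hT => Pool.Agent.Y126.MD.lattices hn hT⟩

end Pool.Agent.Results.MP_78e9a5_nt.MaximallyDegenerate
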